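import Mathlib
import Pool.Agent.W926.PS.Stm
import Pool.Agent.W926.PS.Base

set_option autoImplicit false

/-!
# Part GL: general lexicographic orders with flips
-/

namespace Pool.Agent.W554.PS

open Finset W926.PS

variable {r a : ℕ} {st : Pos r a → ℕ} {fl : Om r a → Pos r a → Bool}

/-- the order -/
def LT (st : Pos r a → ℕ) (fl : Om r a → Pos r a → Bool) (x y : Om r a) : Prop :=
  ∃ p, FD st x y p ∧ x p.1 p.2 = fl x p

theorem LT.irrefl (x : Om r a) : ¬ LT st fl x x := by
  rintro ⟨p, hp, -⟩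
  exact hp.2 rfl

theorem LT.trans
    (hfl : ∀ x y p, (∀ p', Before st p' p → x p'.1 p'.2 = y p'.1 p'.2) → fl x p = fl y p)
    {x y z : Om r a} (h1 : LT st fl x y) (h2 : LT st fl y z) : LT st fl x z := by
  obtain ⟨p, hp, hp'⟩ := h1
  obtain ⟨q, hq, hq'⟩ := h2
  by_cases hpq : p = q
  · subst hpq
    exfalso
    have := hfl x y p hp.1
    exact hp.2 (by rw [hp', hq', this])
  · rcases before_or (st := st) hpq with hb | hb
    · refine ⟨p, ⟨fun p' h => ?_, ?_⟩, hp'⟩
      · rw [hp.1 p' h, hq.1 p' (h.trans hb)]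
      · rw [← hq.1 p hb]; exact hp.2
    · refine ⟨q, ⟨fun p' h => ?_, ?_⟩, ?_⟩
      · rw [hp.1 p' (h.trans hb), hq.1 p' h]
      · rw [hp.1 q hb]; exact hq.2
      · rw [hp.1 q hb, hq']
        exact (hfl x y q fun p' h => hp.1 p' (h.trans hb)).symm

theorem LT.total
    (hfl : ∀ x y p, (∀ p', Before st p' p → x p'.1 p'.2 = y p'.1 p'.2) → fl x p = fl y p)
    {x y : Om r a} {p : Pos r a} (h : FD st x y p) (hx : ¬ x p.1 p.2 = fl x p) :
    LT st fl y x := by
  refine ⟨p, h.symm, ?_⟩
  rw [← hfl x y p h.1]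
  have h2 := h.2
  revert h2 hx
  cases x p.1 p.2 <;> cases y p.1 p.2 <;> cases fl x p <;> simp

theorem gl : S_GL := by
  classical
  intro r a st fl hfl
  set key : Om r a → ℕ := fun x => (univ.filter (fun z => LT st fl z x)).card with hkey
  have hlt : ∀ x y, LT st fl x y → key x < key y := by
    intro x y h
    apply Finset.card_lt_card
    rw [Finset.ssubset_iff_of_subset]
    · exact ⟨x, by simp [h], by simp [LT.irrefl]⟩
    · intro z hz
      rw [mem_filter] at hz ⊢
      exact ⟨hz.1, LT.trans hfl hz.2 h⟩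
  refine ⟨key, ?_, ?_⟩
  · intro x y hxy
    by_contra hne
    obtain ⟨p, hp⟩ := exists_FD st hne
    by_cases h : x p.1 p.2 = fl x p
    · have := hlt x y ⟨p, hp, h⟩
      omega
    · have := hlt y x (LT.total hfl hp h)
      omega
  · intro x y p hp
    constructor
    · intro h
      by_contra hx
      have := hlt y x (LT.total hfl hp hx)
      omega
    · intro h
      exact hlt x y ⟨p, hp, h⟩

end Pool.Agent.W554.PS
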